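import Mathlib
import Pool.Agent.H336Z.GW.Main

namespace Pool.Agent.Results.MP_7fb4a2_an.NoRepFactor

open Pool.Agent.H336Z.GW

universe u v

/-- There is a metrizable recurrent-transitive Hilbert system all of whose Hilbert-representable
factors have one point; its algebra `𝒜(X, x₀)` lies in `H(ℤ)`, is not reduced to the constants and
meets `B(ℤ)` exactly in the constants. -/
theorem result :
    ∃ (X : Type) (_ : TopologicalSpace X) (_ : CompactSpace X) (_ : T2Space X) (T : X ≃ₜ X)
      (x₀ : X), TopologicalSpace.MetrizableSpace X ∧ RecurrentTransitive T ∧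
      IsTransitivePoint T x₀ ∧ orbitAlgebra T x₀ ⊆ HZ ∧
      (∀ (W : Type u) [TopologicalSpace W] [CompactSpace W] [T2Space W] (R : W ≃ₜ W) (π : X → W),
        IsFactorMap T R π → HilbertRepresentable.{u, v} R → Subsingleton W) ∧
      orbitAlgebra T x₀ ≠ Set.range (fun (c : ℂ) (_ : ℤ) => c) ∧
      orbitAlgebra T x₀ ∩ BZ = Set.range (fun (c : ℂ) (_ : ℤ) => c) := by
  refine ⟨YY, inferInstance, inferInstance, inferInstance, TY, y0, metrizable_YY, YY_recurrent,
    y0_transitive, YY_orbitAlgebra, fun W _ _ _ R π hπ h =>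
      subsingleton_of_collapse hπ (collapse_of_hilbertRepresentable h), fun h => ?_, ?_⟩
  · apply not_subsingleton_YY
    constructor
    have key : ∀ F : C(YY, ℂ), ∀ y, F y = F y0 := by
      intro F y
      have h1 : (fun n : ℤ => F ((TY ^ n) y0)) ∈ orbitAlgebra TY y0 := ⟨F, rfl⟩
      rw [h] at h1
      obtain ⟨c, hc⟩ := h1
      refine y0_transitive.induction_on (p := fun y => F y = F y0) y
        (isClosed_eq F.continuous continuous_const) fun n => ?_
      have a1 := congrFun hc n
      have a2 := congrFun hc 0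
      simp only [zpow_zero, Homeomorph.one_apply] at a1 a2
      rw [← a1, ← a2]
    intro a b
    apply Subtype.ext
    funext m
    let F : C(YY, ℂ) := ⟨fun y => ((y.val m : ℝ) : ℂ),
      Complex.continuous_ofReal.comp ((continuous_apply m).comp continuous_subtype_val)⟩
    exact Complex.ofReal_injective ((key F a).trans (key F b).symm)
  · apply Set.Subset.antisymm
    · rintro h ⟨h1, h2⟩
      obtain ⟨W, _, _, _, S, ρ, G, a1, a2, a3⟩ := exists_factor_of_mem_BZ y0_transitive h1 h2
      have := subsingleton_of_collapse a2 (collapse_of_hilbertRepresentable a1)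
      refine ⟨G (ρ y0), funext fun n => ?_⟩
      rw [a3 n, Subsingleton.elim (ρ ((TY ^ n) y0)) (ρ y0)]
    · rintro _ ⟨c, rfl⟩
      refine ⟨⟨ContinuousMap.const _ c, rfl⟩, ?_⟩
      rw [BZ_eq]
      have h1 := BB.smul_mem c one_mem_BB
      have h2 : (fun (_ : ℤ) => c) = c • (1 : ℤ → ℂ) := by
        funext n
        simp
      change (fun (_ : ℤ) => c) ∈ BB
      rwa [h2]

end Pool.Agent.Results.MP_7fb4a2_an.NoRepFactor
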